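import Pool.Agent.Helper66.SB.Goals

/-!
# Project SB, packet CH: the chart
-/

set_option autoImplicit false

namespace Pool.Agent.Helper12.SB

open Pool.Agent.Helper66.SB Helper18.Shgh MvPolynomial

noncomputable section

/-- the restriction to `X 1 = 0` -/
def rs : R2 →ₐ[ℂ] Polynomial ℂ := aeval ![Polynomial.X, 0]

lemma rs_ch (R : Fin 2 → ℂ) (φ : Polynomial ℂ) (G : R2) : rs (ch R φ G) = br R φ G := by
  have h : rs.comp (ch R φ) = br R φ := by
    apply MvPolynomial.algHom_ext
    intro i
    fin_cases i
    · simp [rs, ch, br, Polynomial.algebraMap_eq]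
    · have h1 : rs (Polynomial.aeval (X 0 : R2) φ) = φ := by
        rw [← Polynomial.aeval_algHom_apply]
        have h2 : rs (X 0 : R2) = Polynomial.X := by simp [rs]
        rw [h2, Polynomial.aeval_X_left_apply]
      have h3 : rs (C (R 1) : R2) = Polynomial.C (R 1) := by
        simp [rs, Polynomial.algebraMap_eq]
      have h4 : rs (X 1 : R2) = 0 := by simp [rs]
      simp only [Fin.mk_one, AlgHom.comp_apply, ch, br, aeval_X, Matrix.cons_val_one,
        Matrix.cons_val_fin_one, map_add, h1, h3, h4, add_zero]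
  exact DFunLike.congr_fun h G

lemma coeff_rs (p : R2) (j : ℕ) : (rs p).coeff j = coeff (Finsupp.single 0 j) p := by
  induction p using MvPolynomial.induction_on' with
  | add p q hp hq => rw [map_add, Polynomial.coeff_add, hp, hq, coeff_add]
  | monomial e a =>
    rw [coeff_monomial, rs, aeval_monomial, Finsupp.prod_fintype _ _ (fun i => pow_zero _),
      Fin.prod_univ_two]
    simp only [Matrix.cons_val_zero, Matrix.cons_val_one, Matrix.cons_val_fin_one,
      Polynomial.algebraMap_eq]
    by_cases h1 : e 1 = 0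
    · rw [h1, pow_zero, mul_one, Polynomial.coeff_C_mul_X_pow]
      by_cases h : e = Finsupp.single 0 j
      · rw [if_pos h, if_pos]
        rw [h]
        simp
      · rw [if_neg h, if_neg]
        intro h0
        apply h
        ext i
        fin_cases i
        · simp [h0]
        · simpa using h1
    · rw [zero_pow h1, mul_zero, mul_zero, Polynomial.coeff_zero, if_neg]
      intro h
      apply h1
      rw [h]
      simp

lemma dvd_sub_rs (p : R2) : (X 1 : R2) ∣ p - Polynomial.aeval (X 0 : R2) (rs p) := by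
  induction p using MvPolynomial.induction_on with
  | C a =>
    have h : Polynomial.aeval (X 0 : R2) (rs (C a)) = C a := by
      simp [rs, MvPolynomial.algebraMap_eq]
    rw [h, sub_self]
    exact dvd_zero _
  | add p q hp hq =>
    rw [map_add, map_add, add_sub_add_comm]
    exact dvd_add hp hq
  | mul_X p i hp =>
    fin_cases i
    · have h : rs (X 0 : R2) = Polynomial.X := by simp [rs]
      simp only [Fin.zero_eta, map_mul, h, Polynomial.aeval_X]
      rw [← sub_mul]
      exact Dvd.dvd.mul_right hp _
    · have h : rs (X 1 : R2) = 0 := by simp [rs]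
      simp only [Fin.mk_one, map_mul, h, mul_zero, map_zero, sub_zero]
      exact Dvd.intro_left _ rfl

lemma pderiv_aeval (φ : Polynomial ℂ) : pderiv 1 (Polynomial.aeval (X 0 : R2) φ) = 0 := by
  rw [Derivation.map_aeval, pderiv_X_of_ne (by decide), smul_zero]

lemma pderiv_ch (R : Fin 2 → ℂ) (φ : Polynomial ℂ) (G : R2) :
    pderiv 1 (ch R φ G) = ch R φ (pderiv 1 G) := by
  induction G using MvPolynomial.induction_on with
  | C a =>
    have h : ch R φ (C a) = C a := by simp [ch, MvPolynomial.algebraMap_eq]
    rw [h, pderiv_C, map_zero]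
  | add p q hp hq => rw [map_add, map_add, hp, hq, map_add, map_add]
  | mul_X p i hp =>
    have hX : pderiv 1 (ch R φ (X i)) = ch R φ (pderiv 1 (X i)) := by
      fin_cases i
      · have h : ch R φ (X 0) = C (R 0) + X 0 := by simp [ch]
        simp only [Fin.zero_eta, h, map_add, pderiv_C, pderiv_X_of_ne (show (0 : Fin 2) ≠ 1 by decide),
          map_zero, add_zero]
      · have h : ch R φ (X 1) = C (R 1) + Polynomial.aeval (X 0 : R2) φ + X 1 := by simp [ch]
        simp only [Fin.mk_one, h, map_add, pderiv_C, pderiv_aeval, pderiv_X_self, map_one,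
          add_zero, zero_add]
    rw [map_mul, pderiv_mul, pderiv_mul, hp, hX, map_add, map_mul, map_mul]

lemma eval_ch (R : Fin 2 → ℂ) (φ : Polynomial ℂ) (hφ : φ.coeff 0 = 0) (Q : Fin 2 → ℂ)
    (hQ : Q 0 = 0) (G : R2) : eval Q (ch R φ G) = eval ![R 0, R 1 + Q 1] G := by
  induction G using MvPolynomial.induction_on with
  | C a =>
    have h : ch R φ (C a) = C a := by simp [ch, MvPolynomial.algebraMap_eq]
    rw [h, eval_C, eval_C]
  | add p q hp hq => rw [map_add, map_add, hp, hq, map_add]
  | mul_X p i hp =>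
    rw [map_mul, map_mul, hp, map_mul]
    congr 1
    fin_cases i
    · have h : ch R φ (X 0) = C (R 0) + X 0 := by simp [ch]
      simp [h, hQ]
    · have h : ch R φ (X 1) = C (R 1) + Polynomial.aeval (X 0 : R2) φ + X 1 := by simp [ch]
      have h2 : eval Q (Polynomial.aeval (X 0 : R2) φ) = 0 := by
        have h3 : eval Q (Polynomial.aeval (X 0 : R2) φ) = Polynomial.eval (Q 0) φ := by
          rw [Polynomial.aeval_def, Polynomial.hom_eval₂, eval_X]
          have h4 : (eval Q).comp (algebraMap ℂ R2) = RingHom.id ℂ := by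
            ext <;> simp [MvPolynomial.algebraMap_eq]
          rw [h4, Polynomial.eval₂_id]
        rw [h3, hQ, ← Polynomial.coeff_zero_eq_eval_zero, hφ]
      simp [h, h2]

theorem gCH : G_CH := by
  intro R φ hφ
  refine ⟨?_, ?_, ?_⟩
  · intro F M hM hdvd
    obtain ⟨q, hq⟩ := hdvd
    obtain ⟨U, hU⟩ := dvd_sub_rs (ch R φ F)
    rw [rs_ch, hq, map_mul, map_pow, Polynomial.aeval_X] at hU
    have hF : ch R φ F = X 1 * U + X 0 ^ M * Polynomial.aeval (X 0 : R2) q := by
      rw [← hU]
      ring
    refine ⟨U, Polynomial.aeval (X 0 : R2) q, hF, ?_⟩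
    have h1 := congrArg (fun p => eval (0 : Fin 2 → ℂ) (pderiv 1 p)) hF
    rw [pderiv_ch, eval_ch R φ hφ 0 rfl, map_add, pderiv_mul, pderiv_mul, pderiv_X_self,
      pderiv_aeval] at h1
    have h2 : eval (0 : Fin 2 → ℂ) U = coeff 0 U := by
      rw [← MvPolynomial.constantCoeff_eq, MvPolynomial.eval_zero]
    have h3 : (![R 0, R 1 + (0 : Fin 2 → ℂ) 1] : Fin 2 → ℂ) = R := by
      ext i
      fin_cases i <;> simp
    rw [h3] at h1
    rw [h1, ← h2]
    have h4 : pderiv 1 ((X 0 : R2) ^ M) = 0 := by
      rw [Derivation.leibniz_pow, pderiv_X_of_ne (show (0 : Fin 2) ≠ 1 by decide), smul_zero,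
        smul_zero]
    rw [h4]
    simp
  · intro G j
    rw [← coeff_rs, rs_ch]
  · intro G c N hG
    let f : R2 →+* R2 := ((sc c).comp (ch R φ)).toRingHom
    have h1 : (mI ![R 0, R 1 + c]).map f ≤ mI (![0, 1] : Fin 2 → ℂ) := by
      rw [Ideal.map_le_iff_le_comap]
      intro p hp
      rw [Ideal.mem_comap, mem_mI_iff]
      rw [mem_mI_iff] at hp
      change eval ![0, 1] (sc c (ch R φ p)) = 0
      have h2 : ∀ g : R2, eval ![0, 1] (sc c g) = eval ![0, c] g := by
        intro g
        induction g using MvPolynomial.induction_on with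
        | C a => simp [sc, MvPolynomial.algebraMap_eq]
        | add p q hp hq => rw [map_add, map_add, hp, hq, map_add]
        | mul_X p i hp =>
          rw [map_mul, map_mul, hp, map_mul]
          congr 1
          fin_cases i <;> simp [sc]
      rw [h2, eval_ch R φ hφ _ (by simp)]
      simpa using hp
    have h2 := Ideal.mem_map_of_mem f hG
    rw [Ideal.map_pow] at h2
    exact Ideal.pow_right_mono h1 N h2

end

end Pool.Agent.Helper12.SB
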