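import Pool.Agent.Helper81.SB.Basic

/-! Packet STICK of project SB: the stick principle implies `Dag`. -/

set_option autoImplicit false

namespace Pool.Agent.Helper12.SB

open Set Cardinal Filter Pool.Agent.Helper81.SB

/-- an infinite set has a labelling with all labels used infinitely often -/
theorem exists_label {α : Type*} (C : Set α) (hC : C.Infinite) :
    ∃ f : α → ℕ, ∀ n, {ξ | ξ ∈ C ∧ f ξ = n}.Infinite := by
  classical
  let e : ℕ ↪ C := Set.Infinite.natEmbedding C hC
  have he : Function.Injective (fun k => (e k : α)) := fun a b h => e.injective (Subtype.ext h)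
  refine ⟨Function.extend (fun k => (e k : α)) (fun k => (Nat.unpair k).1) (fun _ => 0), fun n => ?_⟩
  refine Set.infinite_of_injective_forall_mem (f := fun m => (e (Nat.pair n m) : α)) ?_ ?_
  · intro a b h
    have h1 := he h
    have h2 : (Nat.unpair (Nat.pair n a)).2 = (Nat.unpair (Nat.pair n b)).2 := by
      exact congrArg (fun x => (Nat.unpair x).2) h1
    simpa using h2
  · intro m
    refine ⟨(e (Nat.pair n m)).2, ?_⟩
    have h3 := he.extend_apply (fun k => (Nat.unpair k).1) (fun _ => 0) (Nat.pair n m)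
    simpa using h3

/-- the part of order type `ω` of an infinite set is infinite -/
theorem initial_infinite (T : Set W) (hT : T.Infinite) :
    {ξ | ξ ∈ T ∧ {η | η ∈ T ∧ η < ξ}.Finite}.Infinite := by
  intro hfin
  set C : Set W := {ξ | ξ ∈ T ∧ {η | η ∈ T ∧ η < ξ}.Finite} with hC
  have hne : (T \ C).Nonempty := by
    by_contra hcon
    rw [Set.not_nonempty_iff_eq_empty, Set.sdiff_eq_empty] at hcon
    exact hT (hfin.subset hcon)
  obtain ⟨ξ, hξ, hmin⟩ := WellFounded.has_min (wellFounded_lt (α := W)) _ hne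
  apply hξ.2
  refine ⟨hξ.1, hfin.subset ?_⟩
  rintro η ⟨hη, hlt⟩
  by_contra hηC
  exact hmin η ⟨hη, hηC⟩ hlt

theorem goal_STICK : Goal_STICK := by
  classical
  rintro ⟨𝒯, hcard, hinf, hstick⟩
  let C : Set W → Set W := fun T => {ξ | ξ ∈ T ∧ {η | η ∈ T ∧ η < ξ}.Finite}
  have hlab : ∀ T : Set W, ∃ f : W → ℕ, T.Infinite → ∀ n, {ξ | ξ ∈ C T ∧ f ξ = n}.Infinite := by
    intro T
    by_cases hT : T.Infinite
    · obtain ⟨f, hf⟩ := exists_label (C T) (initial_infinite T hT)
      exact ⟨f, fun _ => hf⟩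
    · exact ⟨fun _ => 0, fun h => absurd h hT⟩
  choose f hf using hlab
  refine ⟨(fun T => (C T, f T)) '' 𝒯, (mk_image_le).trans hcard, ?_, ?_⟩
  · rintro p ⟨T, hT, rfl⟩ ξ hξ
    refine (hξ.2).subset ?_
    rintro η ⟨hη, hlt⟩
    exact ⟨hη.1, hlt⟩
  · intro D hD
    obtain ⟨T, hT, hTD⟩ := hstick D hD
    refine ⟨(C T, f T), ⟨T, hT, rfl⟩, fun n => ?_⟩
    refine (hf T (hinf T hT) n).mono ?_
    rintro ξ ⟨hξ, hn⟩
    exact ⟨hξ, hTD hξ.1, hn⟩

end Pool.Agent.Helper12.SB
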