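import Pool.Agent.Helper66.SB.Goals

/-!
# Project SB, packet XI: monomials modulo a power of `T - 1`
-/

set_option autoImplicit false

namespace Pool.Agent.Helper12.SB

open Pool.Agent.Helper66.SB

noncomputable section

/-- the functional `X ^ k ↦ g(k)` -/
def fnl (g : Polynomial ℂ) : Polynomial ℂ →ₗ[ℂ] ℂ :=
  Polynomial.lsum fun k => (g.eval (k : ℂ)) • LinearMap.id

lemma fnl_monomial (g : Polynomial ℂ) (k : ℕ) (a : ℂ) :
    fnl g (Polynomial.monomial k a) = g.eval (k : ℂ) * a := by
  simp [fnl, Polynomial.lsum_apply, Polynomial.sum_monomial_index]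

lemma fnl_step (g q : Polynomial ℂ) :
    fnl g ((Polynomial.X - 1) * q) = fnl (g.comp (Polynomial.X + 1) - g) q := by
  induction q using Polynomial.induction_on' with
  | add p q hp hq => rw [mul_add, map_add, map_add, hp, hq]
  | monomial k a =>
    rw [sub_mul, one_mul, Polynomial.X_mul_monomial, map_sub, fnl_monomial, fnl_monomial,
      fnl_monomial, Polynomial.eval_sub, Polynomial.eval_comp, Polynomial.eval_add,
      Polynomial.eval_X, Polynomial.eval_one]
    push_cast
    ring

lemma degree_diff {g : Polynomial ℂ} {n : ℕ} (h : g.degree < (n + 1 : ℕ)) :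
    (g.comp (Polynomial.X + 1) - g).degree < (n : ℕ) := by
  by_cases h0 : g = 0
  · rw [h0, Polynomial.zero_comp, sub_zero, Polynomial.degree_zero]
    exact WithBot.bot_lt_coe n
  · have h1 : (Polynomial.X + 1 : Polynomial ℂ) = Polynomial.X + Polynomial.C 1 := by
      rw [Polynomial.C_1]
    have hd : (g.comp (Polynomial.X + 1)).degree = g.degree := by
      rw [h1, Polynomial.degree_eq_natDegree h0, Polynomial.degree_eq_natDegree,
        Polynomial.natDegree_comp, Polynomial.natDegree_X_add_C, mul_one]
      intro h2
      rw [Polynomial.comp_eq_zero_iff] at h2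
      rcases h2 with h2 | ⟨-, h2⟩
      · exact h0 h2
      · have h3 := congrArg Polynomial.natDegree h2
        rw [Polynomial.natDegree_X_add_C, Polynomial.natDegree_C] at h3
        omega
    have hl : (g.comp (Polynomial.X + 1)).leadingCoeff = g.leadingCoeff := by
      rw [h1, Polynomial.leadingCoeff_comp (by rw [Polynomial.natDegree_X_add_C]; omega),
        Polynomial.leadingCoeff_X_add_C, one_pow, mul_one]
    have hne : g.comp (Polynomial.X + 1) ≠ 0 := by
      intro h2
      rw [h2, Polynomial.degree_zero] at hd
      exact h0 (Polynomial.degree_eq_bot.1 hd.symm)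
    have h2 := Polynomial.degree_sub_lt_left hd hne hl
    rw [hd] at h2
    rw [Polynomial.degree_eq_natDegree h0] at h h2
    have h3 : g.natDegree < n + 1 := by exact_mod_cast h
    refine lt_of_lt_of_le h2 ?_
    exact_mod_cast Nat.lt_succ_iff.1 h3

lemma fnl_kill (n : ℕ) : ∀ g : Polynomial ℂ, g.degree < (n : ℕ) → ∀ q : Polynomial ℂ,
    fnl g ((Polynomial.X - 1) ^ n * q) = 0 := by
  induction n with
  | zero =>
    intro g hg q
    have h0 : g = 0 := by
      by_contra h
      rw [Polynomial.degree_eq_natDegree h] at hg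
      have : g.natDegree < 0 := by exact_mod_cast hg
      omega
    rw [h0]
    unfold fnl
    rw [Polynomial.lsum_apply]
    simp only [Polynomial.eval_zero, zero_smul, LinearMap.zero_apply]
    exact Finset.sum_const_zero
  | succ n ih =>
    intro g hg q
    rw [pow_succ', mul_assoc, fnl_step]
    exact ih _ (degree_diff hg) q

theorem gXI : G_XI := by
  intro S e he
  have hinj : Set.InjOn (fun k : ℕ => (k : ℂ)) S := fun a _ b _ h => Nat.cast_injective h
  refine ⟨fnl (Lagrange.basis S (fun k : ℕ => (k : ℂ)) e), fun e' he' => ?_, fun p => ?_⟩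
  · rw [← Polynomial.monomial_one_right_eq_X_pow, fnl_monomial, mul_one]
    split_ifs with h
    · rw [h]
      exact Lagrange.eval_basis_self hinj he
    · exact Lagrange.eval_basis_of_ne (v := fun k : ℕ => (k : ℂ)) (fun h' => h h'.symm) he'
  · apply fnl_kill
    rw [Lagrange.degree_basis hinj he]
    have : 0 < S.card := Finset.card_pos.2 ⟨e, he⟩
    exact_mod_cast Nat.sub_lt this one_pos

end

end Pool.Agent.Helper12.SB
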